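import Pool.Agent.H843Z.CJ.Amph

open Pool.Agent.H843Z.CJ in
/-- For the point-symmetric 4-plat diagrams (all amphichiral two-bridge knots) the normalised
`N`-coloured Jones invariant at `t = a^4`, any primitive `N`-th root of unity, is a positive
real number. -/
theorem Pool.Agent.Results.MP_b30479_gt.AAmphichiralPositive.result (N : ℕ) (hN : 2 ≤ N) (a : ℂ)
    (ha : IsPrimitiveRoot a (4 * N)) (β : List Slice) (hβ : ∀ s ∈ β, s.IsGen3) :
    ∃ r : ℝ, 0 < r ∧
      jones N a ((Slice.cup 1 :: β) ++ reflect 1 (Slice.cup 1 :: β)) = r :=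
  amph_pos (root_of_prim hN ha) β hβ
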